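import Pool.Agent.K4H25.PC.Pairs
import Pool.Agent.Y172.Dim4

/-!
If `K_X + Δ` is not big then `h⁰ (m (K_X + Δ) + A)` grows at most like `m ^ (dim X - 1)`.
-/

set_option autoImplicit false
set_option linter.overlappingInstances false

open FF Module Pool.Agent.W602.GT Pool.Agent.Y172

namespace Pool.Agent.K4H62.AP

section

variable {K : Type} [Field K] [Algebra ℂ K]

/-- A function which vanishes at finitely many places. -/
theorem exists_zero (S : Finset (Place ℂ K)) : ∃ b : K, b ≠ 0 ∧ ∀ P ∈ S, 0 < P.ord b := by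
  classical
  induction S using Finset.induction_on with
  | empty => exact ⟨1, one_ne_zero, by simp⟩
  | insert P S hP ih =>
    obtain ⟨b, hb0, hb⟩ := ih
    obtain ⟨b1, hb10, hb1, hP1⟩ : ∃ b1 : K, b1 ≠ 0 ∧ (∀ Q ∈ S, 0 < Q.ord b1) ∧ 0 ≤ P.ord b1 := by
      rcases le_or_gt 0 (P.ord b) with h | h
      · exact ⟨b, hb0, hb, h⟩
      · obtain ⟨h1, h2⟩ := P.ord_add_eq hb0 one_ne_zero (by rw [P.ord_one]; exact h)
        refine ⟨b / (b + 1), div_ne_zero hb0 h1, fun Q hQ => ?_, ?_⟩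
        · have h3 := hb Q hQ
          obtain ⟨-, h4⟩ := Q.ord_add_eq one_ne_zero hb0 (by rw [Q.ord_one]; exact h3)
          rw [Q.ord_div hb0 h1, add_comm b 1, h4, Q.ord_one]
          omega
        · rw [P.ord_div hb0 h1, h2, sub_self]
    obtain ⟨t, ht0, ht⟩ := P.surj
    obtain ⟨k, hk⟩ : ∃ k : ℕ, ∀ Q ∈ S, -(Q.ord t) < k := by
      refine ⟨∑ Q ∈ S, (Q.ord t).natAbs + 1, fun Q hQ => ?_⟩
      have h1 : (Q.ord t).natAbs ≤ ∑ Q ∈ S, (Q.ord t).natAbs :=
        Finset.single_le_sum (f := fun Q : Place ℂ K => (Q.ord t).natAbs) (fun _ _ => Nat.zero_le _) hQ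
      omega
    refine ⟨b1 ^ k * t, mul_ne_zero (pow_ne_zero _ hb10) ht0, fun Q hQ => ?_⟩
    rw [Q.ord_mul (pow_ne_zero _ hb10) ht0, Q.ord_pow]
    rcases Finset.mem_insert.1 hQ with rfl | hQ
    · rw [ht]
      have := mul_nonneg (Int.natCast_nonneg k) hP1
      omega
    · have h1 := hb1 Q hQ
      have h2 := hk Q hQ
      nlinarith

theorem exists_large (S : Finset (Place ℂ K)) (c : ℕ) :
    ∃ b : K, b ≠ 0 ∧ ∀ P ∈ S, (c : ℤ) ≤ P.ord b := by
  obtain ⟨b, hb0, hb⟩ := exists_zero S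
  refine ⟨b ^ c, pow_ne_zero _ hb0, fun P hP => ?_⟩
  rw [P.ord_pow]
  have h1 := hb P hP
  have h2 : (0 : ℤ) ≤ c := Int.natCast_nonneg c
  nlinarith

variable {N : ℕ} {y : Fin (N + 1) → K} {n : ℕ}

theorem ordGe_zero (P : Place ℂ K) (c : ℚ) :
    OrdGe P (0 : (Fin n → Derivation ℂ K K) → K) c := fun _ _ => Or.inl rfl

theorem ordGe_sum {ι : Type} {P : Place ℂ K} {c : ℚ} (s : Finset ι)
    {f : ι → (Fin n → Derivation ℂ K K) → K} (h : ∀ j ∈ s, OrdGe P (f j) c) :
    OrdGe P (∑ j ∈ s, f j) c := by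
  classical
  induction s using Finset.induction_on with
  | empty => exact ordGe_zero P c
  | insert a s ha ih =>
    rw [Finset.sum_insert ha]
    exact (h a (Finset.mem_insert_self a s)).add (ih fun j hj => h j (Finset.mem_insert_of_mem hj))

theorem ordGe_smul {P : Place ℂ K} {c : ℚ} {ω : (Fin n → Derivation ℂ K K) → K}
    (h : OrdGe P ω c) {b : K} (hb : b ≠ 0) : OrdGe P (fun E => b * ω E) (P.ord b + c) := by
  intro E hE
  change b * ω E = 0 ∨ _ ≤ ((P.ord (b * ω E) : ℤ) : ℚ)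
  by_cases h0 : ω E = 0
  · exact Or.inl (by rw [h0, mul_zero])
  · right
    have h1 := (h E hE).resolve_left h0
    rw [P.ord_mul hb h0]
    push_cast
    linarith

theorem pluri_smul {m : ℕ} {ω : (Fin n → Derivation ℂ K K) → K} (h : IsPluri m ω) (b : K) :
    IsPluri m (fun E => b * ω E) := by
  intro A D
  have h1 := h A D
  change b * ω _ = _ * (b * ω D)
  rw [h1]
  ring

/-- If no section of `m K_X + D` vanishes on the zeros of `b`, then the spaces `b ^ j V`, `V` the
space of the sections, are independent. -/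
theorem direct {m : ℕ} {D : Place ℂ K → ℚ} {b : K} (hb : b ≠ 0)
    (hnb : ∀ ω : (Fin n → Derivation ℂ K K) → K, IsSection y n m D ω →
      (∀ P, IsPrimeDivisor y P → 0 ≤ P.ord b → OrdGe P ω (P.ord b + -(D P))) → ω = 0) (J : ℕ) :
    ∀ v : ℕ → (Fin n → Derivation ℂ K K) → K, (∀ j, IsSection y n m D (v j)) →
      (∑ j ∈ Finset.range J, fun E => b ^ j * v j E) = 0 → ∀ j < J, v j = 0 := by
  induction J with
  | zero => intro v _ _ j hj; omega
  | succ J ih =>
    intro v hv h0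
    obtain ⟨w, hw⟩ : ∃ w : (Fin n → Derivation ℂ K K) → K,
      w = ∑ j ∈ Finset.range J, fun E => b ^ j * v (j + 1) E := ⟨_, rfl⟩
    have hv0 : ∀ E, v 0 E = -(b * w E) := by
      intro E
      have h1 := congrFun h0 E
      rw [Finset.sum_range_succ', Pi.add_apply, Finset.sum_apply, Pi.zero_apply] at h1
      rw [hw, Finset.sum_apply, Finset.mul_sum]
      have h2 : ∑ j ∈ Finset.range J, b ^ (j + 1) * v (j + 1) E =
          ∑ j ∈ Finset.range J, b * (b ^ j * v (j + 1) E) :=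
        Finset.sum_congr rfl fun j _ => by ring
      rw [h2, pow_zero, one_mul] at h1
      linear_combination h1
    have hz : v 0 = 0 := by
      refine hnb _ (hv 0) fun P hP hb1 => ?_
      have h1 : OrdGe P w (-(D P)) := by
        rw [hw]
        refine ordGe_sum _ fun j _ => ?_
        refine (ordGe_smul ((hv (j + 1)).2 P hP) (pow_ne_zero j hb)).mono ?_
        rw [P.ord_pow]
        have h2 : (0 : ℚ) ≤ ((j * P.ord b : ℤ) : ℚ) := by
          exact_mod_cast mul_nonneg (Int.natCast_nonneg j) hb1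
        push_cast at h2 ⊢
        linarith
      have h2 := ordGe_smul h1 hb
      intro E hE
      rw [hv0 E]
      rcases h2 E hE with h3 | h3
      · left
        rw [show b * w E = 0 from h3, neg_zero]
      · right
        rw [P.ord_neg]
        exact h3
    have hw0 : w = 0 := by
      funext E
      have h1 := hv0 E
      rw [hz, Pi.zero_apply] at h1
      have h2 : b * w E = 0 := by linear_combination h1
      exact (mul_eq_zero.1 h2).resolve_left hb
    intro j hj
    rcases Nat.eq_zero_or_pos j with h | h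
    · rw [h]
      exact hz
    · have h1 := ih (fun j => v (j + 1)) (fun j => hv (j + 1)) (by rw [← hw]; exact hw0) (j - 1)
        (by omega)
      have h2 : j - 1 + 1 = j := by omega
      simp only [h2] at h1
      exact h1

/-- `K_X + Δ` is big: there are sections of a multiple with `dim X` algebraically independent
ratios. -/
def Big (y : Fin (N + 1) → K) (n : ℕ) (Δ : Place ℂ K → ℚ) : Prop :=
  ∃ m0 : ℕ, 1 ≤ m0 ∧ ∃ ω : Fin (n + 1) → (Fin n → Derivation ℂ K K) → K,
    (∀ j, IsSection y n m0 (m0 • Δ) (ω j)) ∧ ∃ E : Fin n → Derivation ℂ K K, ω 0 E ≠ 0 ∧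
      AlgebraicIndependent ℂ (fun i : Fin n => ω i.succ E / ω 0 E)

theorem effective_add {D D' : Place ℂ K → ℚ} (h : Effective y D) (h' : Effective y D') :
    Effective y (D + D') := by
  refine ⟨fun P hP => ?_, (h.2.union h'.2).subset ?_⟩
  · have h1 := h.1 P hP
    have h2 := h'.1 P hP
    rw [Pi.add_apply]
    linarith
  · rintro P ⟨hP, h0⟩
    by_contra hcon
    simp only [Set.mem_union, Set.mem_ofPred_eq, not_or, not_and, not_not] at hcon
    apply h0
    rw [Pi.add_apply, hcon.1 hP, hcon.2 hP, add_zero]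

/-- **The growth of the sections if `K_X + Δ` is not big.** -/
theorem growth_not_big (hy : NormalModel y) (hn : Algebra.trdeg ℂ K = ((n + 1 : ℕ) : Cardinal))
    {Δ : Place ℂ K → ℚ} (hΔ : Effective y Δ) {D : Fin (n + 1) → Derivation ℂ K K}
    (hD : IsFrame D) (hnb : ¬ Big y (n + 1) Δ) {A : Place ℂ K → ℚ} (hA : Effective y A) :
    ∃ C : ℕ, ∀ m : ℕ, 1 ≤ m → ∀ (r : ℕ) (f : Fin r → K), LinearIndependent ℂ f →
      (∀ i, ∃ ω, IsSection y (n + 1) m (m • Δ + A) ω ∧ ω D = f i) → r ≤ C * m ^ n := by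
  classical
  obtain ⟨z, E0, hz, -⟩ := exists_crd (k := ℂ) (K := K) hn
  have hz0 : ∀ i, z i ≠ 0 := fun i => hz.1.ne_zero i
  have hSfin : ({P | IsPrimeDivisor y P ∧ A P ≠ 0} ∪
      ⋃ i, {P | IsPrimeDivisor y P ∧ P.ord (z i) ≠ 0}).Finite :=
    hA.2.union (Set.finite_iUnion fun i => finite_ord hy (hz0 i))
  obtain ⟨S, hS⟩ : ∃ S : Finset (Place ℂ K), ∀ P, IsPrimeDivisor y P → P ∉ S →
      A P = 0 ∧ ∀ i, P.ord (z i) = 0 := by
    refine ⟨hSfin.toFinset, fun P hP hPS => ?_⟩
    rw [Set.Finite.mem_toFinset] at hPS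
    simp only [Set.mem_union, Set.mem_iUnion, Set.mem_ofPred_eq, not_or, not_and, not_exists,
      not_not] at hPS
    exact ⟨hPS.1 hP, fun i => hPS.2 i hP⟩
  obtain ⟨c, hc⟩ : ∃ c : ℕ, ∀ P ∈ S, ∀ i, A P ≤ c + P.ord (z i) ∧ A P ≤ c := by
    refine ⟨∑ P ∈ S, (⌈A P⌉₊ + ∑ i, (P.ord (z i)).natAbs), fun P hP i => ?_⟩
    have h1 : ⌈A P⌉₊ + ∑ i, (P.ord (z i)).natAbs ≤
        ∑ P ∈ S, (⌈A P⌉₊ + ∑ i, (P.ord (z i)).natAbs) :=
      Finset.single_le_sum (f := fun P : Place ℂ K => ⌈A P⌉₊ + ∑ i, (P.ord (z i)).natAbs)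
        (fun _ _ => Nat.zero_le _) hP
    have h2 : (P.ord (z i)).natAbs ≤ ∑ i, (P.ord (z i)).natAbs :=
      Finset.single_le_sum (f := fun i => (P.ord (z i)).natAbs) (fun _ _ => Nat.zero_le _)
        (Finset.mem_univ i)
    have h3 : A P ≤ (⌈A P⌉₊ : ℚ) := Nat.le_ceil _
    obtain ⟨T, hT⟩ : ∃ T : ℕ, T = ∑ P ∈ S, (⌈A P⌉₊ + ∑ i, (P.ord (z i)).natAbs) := ⟨_, rfl⟩
    rw [← hT] at h1 ⊢
    have h4 : (⌈A P⌉₊ : ℤ) ≤ T + P.ord (z i) := by omega
    have h5 : (⌈A P⌉₊ : ℤ) ≤ T := by omega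
    have h6 : (⌈A P⌉₊ : ℚ) ≤ T + P.ord (z i) := by exact_mod_cast h4
    have h7 : (⌈A P⌉₊ : ℚ) ≤ T := by exact_mod_cast h5
    exact ⟨h3.trans h6, h3.trans h7⟩
  obtain ⟨b, hb0, hb⟩ := exists_large S c
  -- the poles of `b`
  have hPb : Effective y (fun P => max 0 (-(P.ord b : ℚ))) := by
    refine ⟨fun P _ => le_max_left _ _, (finite_ord hy hb0).subset ?_⟩
    rintro P ⟨hP, h0⟩
    refine ⟨hP, fun h1 => h0 ?_⟩
    change max 0 (-(P.ord b : ℚ)) = 0
    rw [h1]
    simp
  obtain ⟨C, hC⟩ := Pool.Agent.K4H25.PC.sec_growth hy hn (effective_add hΔ hPb) hA D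
  refine ⟨C, fun m hm r f hf hω => ?_⟩
  choose ω hω1 hω2 using hω
  -- no section vanishes on the zeros of `b`
  have hno : ∀ ω : (Fin (n + 1) → Derivation ℂ K K) → K, IsSection y (n + 1) m (m • Δ + A) ω →
      (∀ P, IsPrimeDivisor y P → 0 ≤ P.ord b →
        OrdGe P ω (P.ord b + -((m • Δ + A) P))) → ω = 0 := by
    intro ω hω h
    by_contra h0
    have hωD : ω D ≠ 0 := fun h1 => h0 (pluri_zero hD hω.1 h1)
    have e0 : ∀ P, (m • Δ + A) P = m * Δ P + A P := fun P => by
      rw [Pi.add_apply, Pi.smul_apply, nsmul_eq_mul]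
    have e1 : ∀ P, (m • Δ) P = m * Δ P := fun P => by rw [Pi.smul_apply, nsmul_eq_mul]
    -- the order of `z i ω`
    have key : ∀ P, IsPrimeDivisor y P → OrdGe P ω (-(m * Δ P)) ∧
        ∀ i, OrdGe P ω (-(P.ord (z i) : ℚ) + -(m * Δ P)) := by
      intro P hP
      by_cases hPS : P ∈ S
      · have h1 := hb P hPS
        have h2 : (0 : ℤ) ≤ P.ord b := (Int.natCast_nonneg c).trans h1
        have h3 := h P hP h2
        rw [e0] at h3
        have h4 : (c : ℚ) ≤ P.ord b := by exact_mod_cast h1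
        refine ⟨h3.mono ?_, fun i => h3.mono ?_⟩
        · have := (hc P hPS 0).2
          linarith
        · have := (hc P hPS i).1
          linarith
      · obtain ⟨h1, h2⟩ := hS P hP hPS
        have h3 := hω.2 P hP
        rw [e0, h1, add_zero] at h3
        refine ⟨h3, fun i => h3.mono ?_⟩
        rw [h2 i]
        simp
    refine hnb ⟨m, hm, Fin.cons ω fun i E => z i * ω E, fun j => ?_, D, hωD, ?_⟩
    · refine Fin.cases ?_ (fun i => ?_) j
      · rw [Fin.cons_zero]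
        refine ⟨hω.1, fun P hP => ?_⟩
        rw [e1]
        exact (key P hP).1
      · rw [Fin.cons_succ]
        refine ⟨pluri_smul hω.1 _, fun P hP => ?_⟩
        rw [e1]
        refine (ordGe_smul ((key P hP).2 i) (hz0 i)).mono ?_
        linarith
    · have h1 : (fun i : Fin (n + 1) => (Fin.cons ω (fun i E => z i * ω E) :
          Fin (n + 1 + 1) → (Fin (n + 1) → Derivation ℂ K K) → K) i.succ D /
          (Fin.cons ω (fun i E => z i * ω E) :
          Fin (n + 1 + 1) → (Fin (n + 1) → Derivation ℂ K K) → K) 0 D) = z := by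
        funext i
        rw [Fin.cons_succ, Fin.cons_zero]
        exact mul_div_cancel_right₀ _ hωD
      rw [h1]
      exact hz.1
  -- the products
  let F : Fin (m + 1) × Fin r → K := fun q => b ^ (q.1 : ℕ) * f q.2
  have hF : LinearIndependent ℂ F := by
    rw [Fintype.linearIndependent_iff]
    intro g hg
    obtain ⟨v, hv⟩ : ∃ v : ℕ → (Fin (n + 1) → Derivation ℂ K K) → K, ∀ j, v j =
      if h : j < m + 1 then ∑ i, g (⟨j, h⟩, i) • ω i else 0 := ⟨_, fun _ => rfl⟩
    have hvs : ∀ j, IsSection y (n + 1) m (m • Δ + A) (v j) := by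
      intro j
      rw [hv]
      split_ifs with h
      · exact (secSub y (n + 1) m (m • Δ + A)).sum_mem fun i _ =>
          (secSub y (n + 1) m (m • Δ + A)).smul_mem _ (hω1 i)
      · exact (secSub y (n + 1) m (m • Δ + A)).zero_mem
    have hvD : ∀ j : Fin (m + 1), v j D = ∑ i, g (j, i) • f i := by
      intro j
      rw [hv, dif_pos j.2, Finset.sum_apply]
      exact Finset.sum_congr rfl fun i _ => by rw [Pi.smul_apply, hω2]
    have hsum : (∑ j ∈ Finset.range (m + 1), fun E => b ^ j * v j E) =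
        (0 : (Fin (n + 1) → Derivation ℂ K K) → K) := by
      refine pluri_zero hD (m := m) ?_ ?_
      · intro M E
        rw [Finset.sum_apply, Finset.sum_apply, Finset.mul_sum]
        exact Finset.sum_congr rfl fun j _ => pluri_smul (hvs j).1 (b ^ j) M E
      · rw [Finset.sum_apply, Finset.sum_range fun j => b ^ j * v j D]
        rw [Fintype.sum_prod_type] at hg
        rw [← hg]
        refine Finset.sum_congr rfl fun j _ => ?_
        rw [hvD j, Finset.mul_sum]
        exact Finset.sum_congr rfl fun i _ => by rw [mul_smul_comm]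
    have hall := direct hb0 hno (m + 1) v hvs hsum
    rintro ⟨j, i⟩
    have h1 := hall j j.2
    have h2 := hvD j
    rw [h1, Pi.zero_apply] at h2
    exact (Fintype.linearIndependent_iff.1 hf) (fun i => g (j, i)) h2.symm i
  have hcard := hC m hm ((m + 1) * r) (F ∘ finProdFinEquiv.symm)
    (hF.comp _ finProdFinEquiv.symm.injective) (fun q => by
      obtain ⟨⟨j, i⟩, hq⟩ : ∃ q' : Fin (m + 1) × Fin r, q' = finProdFinEquiv.symm q := ⟨_, rfl⟩
      refine ⟨fun E => b ^ (j : ℕ) * ω i E, ⟨pluri_smul (hω1 i).1 _, fun P hP => ?_⟩, ?_⟩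
      · refine (ordGe_smul ((hω1 i).2 P hP) (pow_ne_zero _ hb0)).mono ?_
        rw [P.ord_pow]
        have e1 : (m • (Δ + fun P : Place ℂ K => max 0 (-(P.ord b : ℚ))) + A) P =
            m * (Δ P + max 0 (-(P.ord b : ℚ))) + A P := by
          rw [Pi.add_apply, Pi.smul_apply, nsmul_eq_mul, Pi.add_apply]
        have e2 : (m • Δ + A) P = m * Δ P + A P := by
          rw [Pi.add_apply, Pi.smul_apply, nsmul_eq_mul]
        rw [e1, e2]
        have h1 : -(P.ord b : ℚ) ≤ max 0 (-(P.ord b : ℚ)) := le_max_right _ _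
        have h2 : (0 : ℚ) ≤ max 0 (-(P.ord b : ℚ)) := le_max_left _ _
        have h3 : ((j : ℕ) : ℚ) ≤ m := by
          have := j.2
          exact_mod_cast Nat.lt_succ_iff.1 this
        have h4 : (0 : ℚ) ≤ ((j : ℕ) : ℚ) := Nat.cast_nonneg _
        have h5 := mul_le_mul_of_nonneg_left h1 h4
        have h6 := mul_le_mul_of_nonneg_right h3 h2
        push_cast
        linarith
      · change b ^ (j : ℕ) * ω i D = F (finProdFinEquiv.symm q)
        rw [← hq, hω2])
  have h1 : m * r ≤ m * (C * m ^ n) := by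
    calc m * r ≤ (m + 1) * r := Nat.mul_le_mul_right _ (Nat.le_succ m)
      _ ≤ C * m ^ (n + 1) := hcard
      _ = m * (C * m ^ n) := by ring
  exact Nat.le_of_mul_le_mul_left h1 hm

/-- **Kodaira dimension at least `dim X - 1`.** The Kodaira dimension and the numerical dimension of
`K_X + Δ` agree. -/
theorem dims_curve (hy : NormalModel y) (hn : Algebra.trdeg ℂ K = ((n + 1 : ℕ) : Cardinal))
    {Δ : Place ℂ K → ℚ} (hΔ : Effective y Δ) (hk : KodGe ℂ K (n + 1) (fun _ => False) n) :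
    ∃ κ : ℕ, n ≤ κ ∧ kodairaDim y (n + 1) Δ = (κ : WithBot ℕ) ∧
      ∀ A, Effective y A → Integral y A → numericalDim y (n + 1) Δ A = (κ : EReal) := by
  obtain ⟨yc, D, hyc, hDc⟩ := exists_crd (k := ℂ) (K := K) hn
  have hD : IsFrame D := fun G =>
    ⟨fun j => G (yc j), (Pool.Agent.W73.PG.PULL.expand yc hyc D hDc G).symm⟩
  by_cases hb : Big y (n + 1) Δ
  · obtain ⟨m0, hm0, ω, hω, E, hE, hind⟩ := hb
    obtain ⟨h1, h2⟩ := dims hΔ hD
      (fun A hA => Pool.Agent.K4H25.PC.sec_growth hy hn hΔ hA D) hm0 hω hE hind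
    exact ⟨n + 1, Nat.le_succ n, h1, h2⟩
  · obtain ⟨m0, hm0, ω, hω', E, hE, hind⟩ := hk
    obtain ⟨κ, h1, h2, h3⟩ := dims2 hΔ hD (fun A hA => growth_not_big hy hn hΔ hD hb hA) hm0
      (fun j => Pool.Agent.K4H25.PC.isSection_of hy hn hΔ (hω' j)) hE hind
    have h4 : κ = n := by
      have h5 := h3 0 ⟨fun _ _ => le_rfl, Set.finite_empty.subset (by
        rintro P ⟨-, h⟩
        exact h rfl)⟩ (fun P _ => ⟨0, by simp⟩)
      have h6 : (κ : EReal) ≤ (n : EReal) := h5.1.trans h5.2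
      have h7 : κ ≤ n := by exact_mod_cast h6
      omega
    refine ⟨κ, h1, h2, fun A hA hAint => ?_⟩
    obtain ⟨h5, h6⟩ := h3 A hA hAint
    rw [h4] at h5 ⊢
    exact le_antisymm h6 h5

end

end Pool.Agent.K4H62.AP
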